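import Mathlib

set_option autoImplicit false

/-!
# Isomorphism testing versus the number of isomorphism types

Classes of finite structures are given by one first-order sentence over a signature with finitely
many relation and function symbols (constants are function symbols of arity 0); algorithms are
deterministic multitape Turing machines. The assertion of the question fails.
-/

namespace Pool.Agent.Results.MP_28ce77_lc.Disproof

open FirstOrder

/-! ### Classes of structures -/

/-- A signature of finite type: the arities of the relation symbols and the arities of the function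
symbols (a constant is a function symbol of arity `0`). -/
structure Sig where
  /-- arities of the relation symbols -/
  rels : List ℕ
  /-- arities of the function symbols -/
  funs : List ℕ

/-- The first-order language of a signature. -/
def Sig.lang (S : Sig) : FirstOrder.Language where
  Functions := fun k => {i : Fin S.funs.length // S.funs.get i = k}
  Relations := fun k => {i : Fin S.rels.length // S.rels.get i = k}

/-- A structure with universe `{0, ..., n - 1}`, given by the tables of all symbols. -/
@[ext] structure Tab (S : Sig) (n : ℕ) where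
  /-- tables of the relation symbols -/
  rel : ∀ i : Fin S.rels.length, (Fin (S.rels.get i) → Fin n) → Bool
  /-- tables of the function symbols -/
  fn : ∀ i : Fin S.funs.length, (Fin (S.funs.get i) → Fin n) → Fin n

/-- The tables as a structure in the sense of first-order logic. -/
@[reducible] def Tab.str {S : Sig} {n : ℕ} (A : Tab S n) : S.lang.Structure (Fin n) where
  funMap := fun f x => A.fn f.1 (fun j => x (Fin.cast f.2 j))
  RelMap := fun r x => A.rel r.1 (fun j => x (Fin.cast r.2 j)) = true

/-- Isomorphism of structures with the same universe. -/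
def Iso {S : Sig} {n : ℕ} (A B : Tab S n) : Prop :=
  ∃ e : Equiv.Perm (Fin n), (∀ i x, B.rel i (fun j => e (x j)) = A.rel i x) ∧
    ∀ i x, B.fn i (fun j => e (x j)) = e (A.fn i x)

/-- A first-order definable class of finite structures of finite type. -/
structure FOClass where
  /-- the signature -/
  sig : Sig
  /-- the defining sentence -/
  ax : sig.lang.Sentence

/-- The members of the class with universe `{0, ..., n - 1}`. -/
def FOClass.Mem (L : FOClass) (n : ℕ) : Type :=
  {A : Tab L.sig n // @FirstOrder.Language.Sentence.Realize L.sig.lang (Fin n) A.str L.ax}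

/-- `f_L(n)`: the number of isomorphism types of `n`-element members of `L`. -/
noncomputable def FOClass.f (L : FOClass) (n : ℕ) : ℕ :=
  Nat.card (Quot (fun A B : L.Mem n => Iso A.1 B.1))

/-! ### The input words -/

/-- The word listing all tables of a structure. An element `v` is written in binary with the number
of digits of `n`; the tuples are listed in lexicographic order. -/
def Tab.word {S : Sig} {n : ℕ} (A : Tab S n) : List Bool :=
  (List.finRange S.rels.length).flatMap (fun i =>
    (List.finRange (n ^ S.rels.get i)).map (fun t => A.rel i (finFunctionFinEquiv.symm t))) ++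
  (List.finRange S.funs.length).flatMap (fun i =>
    (List.finRange (n ^ S.funs.get i)).flatMap (fun t =>
      (List.range (Nat.size n)).map (fun j =>
        Nat.testBit (A.fn i (finFunctionFinEquiv.symm t) : Fin n) j)))

/-- The input word of a pair of structures: `n` in unary, then both lists of tables. -/
def input {S : Sig} {n : ℕ} (A B : Tab S n) : List Bool :=
  List.replicate n true ++ [false] ++ A.word ++ B.word

/-! ### Multitape Turing machines -/

/-- Tape symbols: blank (`none`), the two input symbols and `g` further symbols. -/
abbrev Sym (g : ℕ) : Type := Option (Bool ⊕ Fin g)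

/-- A deterministic Turing machine with `tapes + 1` two-way infinite tapes, an accepting and a
rejecting state. A transition depends on the state and on the symbols read by all heads; it gives
the new state and, for every tape, the symbol written and the move (`-1`, `0` or `1`). -/
structure Machine where
  /-- number of tapes besides the input tape -/
  tapes : ℕ
  /-- number of additional tape symbols -/
  extra : ℕ
  /-- number of states -/
  states : ℕ
  /-- initial state -/
  start : Fin states
  /-- accepting state -/
  acc : Fin states
  /-- rejecting state -/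
  rej : Fin states
  /-- the accepting and the rejecting state are different -/
  acc_ne_rej : acc ≠ rej
  /-- transition function -/
  δ : Fin states → (Fin (tapes + 1) → Sym extra) →
    Fin states × (Fin (tapes + 1) → Sym extra × SignType)

/-- A configuration: state, head positions, tape contents. -/
structure Config (M : Machine) where
  /-- state -/
  state : Fin M.states
  /-- positions of the heads -/
  head : Fin (M.tapes + 1) → ℤ
  /-- contents of the tapes -/
  tape : Fin (M.tapes + 1) → ℤ → Sym M.extra

/-- A configuration is halted if its state is the accepting or the rejecting state. -/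
def Config.halted {M : Machine} (c : Config M) : Prop := c.state = M.acc ∨ c.state = M.rej

instance {M : Machine} (c : Config M) : Decidable c.halted := by
  unfold Config.halted; infer_instance

/-- One step of the machine; halted configurations do not change. -/
def step (M : Machine) (c : Config M) : Config M :=
  if c.halted then c else
    let r := M.δ c.state (fun j => c.tape j (c.head j))
    { state := r.1
      head := fun j => c.head j + (((r.2 j).2 : SignType) : ℤ)
      tape := fun j => Function.update (c.tape j) (c.head j) (r.2 j).1 }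

/-- The initial configuration on the word `w`, written on tape `0` from cell `0` on. -/
def init (M : Machine) (w : List Bool) : Config M where
  state := M.start
  head := fun _ => 0
  tape := fun j x => if j = 0 ∧ 0 ≤ x then (w[x.toNat]?).map Sum.inl else none

/-- The configuration after `t` steps. -/
def run (M : Machine) (w : List Bool) (t : ℕ) : Config M := (step M)^[t] (init M w)

/-- The number of steps until the machine halts. -/
noncomputable def steps (M : Machine) (w : List Bool) : ℕ := sInf {t | (run M w t).halted}

/-- `M` is an isomorphism testing algorithm for the class `L`: on every pair of `n`-element members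
it halts, and it accepts if and only if they are isomorphic. -/
def Tests (L : FOClass) (M : Machine) : Prop :=
  ∀ (n : ℕ) (A B : L.Mem n), (∃ t, (run M (input A.1 B.1) t).halted) ∧
    ((∃ t, (run M (input A.1 B.1) t).state = M.acc) ↔ Iso A.1 B.1)

/-- `m_L(M, n)`: the largest number of steps on any pair of `n`-element members of `L`. -/
noncomputable def FOClass.m (L : FOClass) (M : Machine) (n : ℕ) : ℕ :=
  sSup (Set.range (fun P : L.Mem n × L.Mem n => steps M (input P.1.1 P.2.1)))

/-! ### Auxiliary facts -/

theorem finite_tab (S : Sig) (n : ℕ) : Finite (Tab S n) := by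
  refine Finite.of_injective (fun A : Tab S n => (A.rel, A.fn)) ?_
  intro A B h
  simp only [Prod.mk.injEq] at h
  exact Tab.ext h.1 h.2

theorem finite_mem (L : FOClass) (n : ℕ) : Finite (L.Mem n) := by
  have := finite_tab L.sig n
  unfold FOClass.Mem
  infer_instance

theorem steps_le_m (L : FOClass) (M : Machine) (n : ℕ) (A B : L.Mem n) :
    steps M (input A.1 B.1) ≤ L.m M n := by
  have := finite_mem L n
  exact le_csSup (Set.finite_range _).bddAbove ⟨(A, B), rfl⟩

theorem run_succ (M : Machine) (w : List Bool) (t : ℕ) :
    run M w (t + 1) = step M (run M w t) := by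
  unfold run
  rw [Function.iterate_succ_apply']

/-- Two runs agree as long as the head cannot have reached the first difference. -/
theorem run_agree (M : Machine) (w w' : List Bool) (N : ℕ)
    (h : ∀ i < N, w[i]? = w'[i]?) (t : ℕ) (ht : t ≤ N) :
    (run M w t).state = (run M w' t).state ∧ (run M w t).head = (run M w' t).head ∧
    (run M w t).head 0 ≤ t ∧
    ∀ j (x : ℤ), (j ≠ 0 ∨ x < (N : ℤ)) → (run M w t).tape j x = (run M w' t).tape j x := by
  induction t with
  | zero =>
    refine ⟨rfl, rfl, le_rfl, ?_⟩
    intro j x hx
    change (if j = 0 ∧ 0 ≤ x then (w[x.toNat]?).map Sum.inl else none) =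
      if j = 0 ∧ 0 ≤ x then (w'[x.toNat]?).map Sum.inl else none
    by_cases hj : j = 0 ∧ 0 ≤ x
    · rw [if_pos hj, if_pos hj, h]
      rcases hx with hx | hx
      · exact absurd hj.1 hx
      · omega
    · rw [if_neg hj, if_neg hj]
  | succ t ih =>
    obtain ⟨h1, h2, h3, h4⟩ := ih (by omega)
    rw [run_succ, run_succ]
    set c := run M w t with hc
    set c' := run M w' t with hc'
    by_cases hh : c.halted
    · have hh' : c'.halted := by
        unfold Config.halted at hh ⊢
        rw [← h1]
        exact hh
      unfold step
      rw [if_pos hh, if_pos hh']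
      exact ⟨h1, h2, by push_cast; omega, h4⟩
    · have hh' : ¬ c'.halted := by
        unfold Config.halted at hh ⊢
        rw [← h1]
        exact hh
      have hread : (fun j => c.tape j (c.head j)) = fun j => c'.tape j (c'.head j) := by
        funext j
        rw [← h2]
        apply h4
        by_cases hj : j = 0
        · right
          subst hj
          omega
        · left
          exact hj
      unfold step
      rw [if_neg hh, if_neg hh', ← hread, ← h1]
      refine ⟨rfl, by simp only [h2], ?_, ?_⟩
      · simp only
        generalize ((M.δ c.state fun j => c.tape j (c.head j)).2 0).2 = d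
        have hd : ((d : SignType) : ℤ) ≤ 1 := by
          rcases d with _ | _ | _ <;> decide
        push_cast
        omega
      · intro j x hx
        simp only [← h2]
        by_cases hxe : x = c.head j
        · rw [hxe, Function.update_self, Function.update_self]
        · rw [Function.update_of_ne hxe, Function.update_of_ne hxe]
          exact h4 j x hx

/-! ### The two classes -/

/-- all finite sets: the empty signature and the sentence `true` -/
def K : FOClass where
  sig := ⟨[], []⟩
  ax := ⊤

/-- one relation symbol of arity `1` -/
def SJ : Sig := ⟨[1], []⟩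

/-- the relation symbol -/
def P : SJ.lang.Relations 1 := ⟨⟨0, by decide⟩, rfl⟩

/-- the sentence `∀ x y, P x → (P y → x = y)` -/
def axJ : SJ.lang.Sentence :=
  ((((P.boundedFormula₁ (Language.Term.var (Sum.inr 0) :
      SJ.lang.Term (Empty ⊕ Fin 2))) : SJ.lang.BoundedFormula Empty 2).imp
    ((P.boundedFormula₁ (Language.Term.var (Sum.inr 1))).imp
      (Language.Term.bdEqual (Language.Term.var (Sum.inr 0)) (Language.Term.var (Sum.inr 1)))))).all.all

/-- sets with at most one marked element -/
def J : FOClass where
  sig := SJ
  ax := axJ

/-- the mark of the element `v` -/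
def mark {n : ℕ} (A : Tab SJ n) (v : Fin n) : Bool := A.rel ⟨0, by decide⟩ (fun _ => v)

theorem relMap_P {n : ℕ} (A : Tab SJ n) (v : Fin n) :
    @Language.Structure.RelMap SJ.lang (Fin n) A.str 1 P ![v] ↔ mark A v = true := by
  have h : (fun j : Fin (SJ.rels.get P.1) => ![v] (Fin.cast P.2 j)) = fun _ => v := by
    funext j
    exact Matrix.cons_val_fin_one _ _ _
  change A.rel P.1 (fun j : Fin (SJ.rels.get P.1) => ![v] (Fin.cast P.2 j)) = true ↔ _
  rw [h]
  rfl

theorem realize_J {n : ℕ} (A : Tab SJ n) :
    @FirstOrder.Language.Sentence.Realize SJ.lang (Fin n) A.str axJ ↔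
      ∀ x y : Fin n, mark A x = true → mark A y = true → x = y := by
  let _ := A.str
  unfold Language.Sentence.Realize axJ
  simp only [Language.Formula.Realize, Language.BoundedFormula.realize_all,
    Language.BoundedFormula.realize_imp, Language.BoundedFormula.realize_bdEqual,
    Language.BoundedFormula.realize_rel₁, Language.Term.realize_var, Sum.elim_inr]
  have e0 : ∀ x y : Fin n, (Fin.snoc (Fin.snoc default x) y : Fin 2 → Fin n) 0 = x :=
    fun _ _ => rfl
  have e1 : ∀ x y : Fin n, (Fin.snoc (Fin.snoc default x) y : Fin 2 → Fin n) 1 = y :=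
    fun _ _ => rfl
  constructor
  · intro h x y hx hy
    have := h x y
    rw [e0, e1] at this
    exact this ((relMap_P A x).2 hx) ((relMap_P A y).2 hy)
  · intro h x y hx hy
    rw [e0] at hx
    rw [e1] at hy
    rw [e0, e1]
    exact h x y ((relMap_P A x).1 hx) ((relMap_P A y).1 hy)

/-! ### The numbers of isomorphism types -/

theorem realize_top' {S : Sig} {n : ℕ} (A : Tab S n) :
    @FirstOrder.Language.Sentence.Realize S.lang (Fin n) A.str ⊤ := by
  let _ := A.str
  exact (Language.BoundedFormula.realize_top).2 trivial

theorem tab_K {n : ℕ} (A B : Tab K.sig n) : A = B := by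
  refine Tab.ext ?_ ?_
  · funext i; exact i.elim0
  · funext i; exact i.elim0

theorem f_K (n : ℕ) : K.f n = 1 := by
  have hne : Nonempty (K.Mem n) :=
    ⟨⟨⟨fun i => i.elim0, fun i => i.elim0⟩, realize_top' _⟩⟩
  unfold FOClass.f
  rw [Nat.card_eq_one_iff_unique]
  refine ⟨⟨?_⟩, hne.map (Quot.mk _)⟩
  rintro ⟨A⟩ ⟨B⟩
  rw [Subtype.ext (tab_K A.1 B.1)]

theorem eq_fn_const {n : ℕ} (i : Fin SJ.rels.length) (x : Fin (SJ.rels.get i) → Fin n) :
    ∃ v, ∀ (A : Tab SJ n) (g : Fin n → Fin n), A.rel i (fun j => g (x j)) = mark A (g v) := by
  match i, x with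
  | ⟨0, _⟩, x =>
    refine ⟨x (0 : Fin 1), ?_⟩
    intro A g
    unfold mark
    have h : (fun j => g (x j)) = fun _ => g (x (0 : Fin 1)) := by
      funext j
      have hj : j = (0 : Fin 1) := Subsingleton.elim (α := Fin 1) _ _
      rw [hj]
    rw [h]

theorem iso_of_mark {n : ℕ} {A B : Tab SJ n} (e : Equiv.Perm (Fin n))
    (h : ∀ v, mark B (e v) = mark A v) : Iso A B := by
  refine ⟨e, ?_, fun i => i.elim0⟩
  intro i x
  obtain ⟨v, hv⟩ := eq_fn_const i x
  have h1 := hv A id
  have h2 := hv B e
  simp only [id] at h1
  rw [h1, h2, h]

theorem mark_of_iso {n : ℕ} {A B : Tab SJ n} (h : Iso A B) :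
    ∃ e : Equiv.Perm (Fin n), ∀ v, mark B (e v) = mark A v := by
  obtain ⟨e, he, -⟩ := h
  exact ⟨e, fun v => he _ _⟩

theorem iso_J {n : ℕ} {A B : Tab SJ n}
    (hA : ∀ x y : Fin n, mark A x = true → mark A y = true → x = y)
    (hB : ∀ x y : Fin n, mark B x = true → mark B y = true → x = y)
    (h : (∃ v, mark A v = true) ↔ ∃ v, mark B v = true) : Iso A B := by
  by_cases hv : ∃ v, mark A v = true
  · obtain ⟨a, ha⟩ := hv
    obtain ⟨b, hb⟩ := h.1 ⟨a, ha⟩
    refine iso_of_mark (Equiv.swap a b) ?_
    intro v
    rw [Bool.eq_iff_iff]
    constructor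
    · intro hm
      have := hB _ _ hm hb
      rw [Equiv.swap_apply_eq_iff, Equiv.swap_apply_right] at this
      rw [this]
      exact ha
    · intro hm
      rw [hA _ _ hm ha, Equiv.swap_apply_left]
      exact hb
  · have hw : ¬ ∃ v, mark B v = true := fun h' => hv (h.2 h')
    push Not at hv hw
    refine iso_of_mark (Equiv.refl _) ?_
    intro v
    rw [Equiv.refl_apply, Bool.eq_false_iff.2 (hv v), Bool.eq_false_iff.2 (hw v)]

open Classical in
theorem f_J (n : ℕ) : J.f n ≤ 2 := by
  have := finite_mem J n
  let F : Quot (fun A B : J.Mem n => Iso A.1 B.1) → Bool :=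
    Quot.lift (fun A => decide (∃ v, mark A.1 v = true)) (by
      intro A B hAB
      obtain ⟨e, he⟩ := mark_of_iso hAB
      simp only [decide_eq_decide]
      constructor
      · rintro ⟨v, hv⟩
        exact ⟨e v, by rw [he]; exact hv⟩
      · rintro ⟨v, hv⟩
        refine ⟨e.symm v, ?_⟩
        rw [← he, Equiv.apply_symm_apply]
        exact hv)
  have hF : Function.Injective F := by
    rintro ⟨A⟩ ⟨B⟩ h
    apply Quot.sound
    have h' : decide (∃ v, mark A.1 v = true) = decide (∃ v, mark B.1 v = true) := h
    rw [decide_eq_decide] at h'
    exact iso_J ((realize_J A.1).1 A.2) ((realize_J B.1).1 B.2) h'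
  have := Nat.card_le_card_of_injective F hF
  simpa [FOClass.f] using this

/-! ### The algorithm for `K` -/

/-- the algorithm that accepts at once -/
def yes : Machine where
  tapes := 0
  extra := 0
  states := 2
  start := 0
  acc := 0
  rej := 1
  acc_ne_rej := by decide
  δ := fun s r => (s, fun j => (r j, 0))

theorem halted_yes (w : List Bool) : (run yes w 0).halted := Or.inl rfl

theorem tests_K : Tests K yes := by
  intro n A B
  refine ⟨⟨0, halted_yes _⟩, ?_⟩
  constructor
  · intro _
    rw [tab_K A.1 B.1]
    exact ⟨Equiv.refl _, fun _ _ => rfl, fun _ _ => rfl⟩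
  · intro _
    exact ⟨0, rfl⟩

theorem m_K (n : ℕ) : K.m yes n = 0 := by
  have h : K.m yes n ≤ 0 := by
    refine csSup_le' ?_
    rintro _ ⟨P, rfl⟩
    exact Nat.sInf_le (halted_yes _)
  omega

/-! ### The lower bound for `J` -/

/-- at most one marked element, the element `0` is marked iff `b` -/
def tab (n : ℕ) (b : Bool) : Tab SJ n where
  rel := fun i x => match i, x with
    | ⟨0, _⟩, x => b && decide ((x (0 : Fin 1)).1 = 0)
  fn := fun i => i.elim0

theorem mark_tab (n : ℕ) (b : Bool) (v : Fin n) :
    mark (tab n b) v = (b && decide (v.1 = 0)) := rfl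

/-- the structure `tab n b` as a member of `J` -/
def mem (n : ℕ) (b : Bool) : J.Mem n :=
  ⟨tab n b, (realize_J (tab n b)).2 (by
    intro x y hx hy
    rw [mark_tab] at hx hy
    simp only [Bool.and_eq_true, decide_eq_true_eq] at hx hy
    exact Fin.ext (hx.2.trans hy.2.symm))⟩

theorem not_iso (n : ℕ) (hn : 0 < n) : ¬ Iso (tab n true) (tab n false) := by
  intro h
  obtain ⟨e, he⟩ := mark_of_iso h
  have := he ⟨0, hn⟩
  rw [mark_tab, mark_tab] at this
  simp at this

theorem run_halted (M : Machine) (w : List Bool) (t : ℕ) (h : (run M w t).halted) (s : ℕ) :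
    run M w (t + s) = run M w t := by
  induction s with
  | zero => rfl
  | succ s ih =>
    rw [← Nat.add_assoc, run_succ, ih]
    unfold step
    rw [if_pos h]

theorem input_getElem {S : Sig} {n : ℕ} (A B B' : Tab S n) (i : ℕ) (hi : i < n) :
    (input A B)[i]? = (input A B')[i]? := by
  unfold input
  simp only [List.append_assoc]
  rw [List.getElem?_append_left (by simpa using hi), List.getElem?_append_left (by simpa using hi)]

theorem le_m_J (M : Machine) (hM : Tests J M) (n : ℕ) : n ≤ J.m M n := by
  by_contra hlt
  have hn : 0 < n := by omega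
  obtain ⟨hh, hacc⟩ := hM n (mem n true) (mem n true)
  obtain ⟨-, hacc'⟩ := hM n (mem n true) (mem n false)
  set w := input (mem n true).1 (mem n true).1 with hw
  set w' := input (mem n true).1 (mem n false).1 with hw'
  have hle := steps_le_m J M n (mem n true) (mem n true)
  set t := steps M w with ht
  have hht : (run M w t).halted := Nat.sInf_mem hh
  have hagree := (run_agree M w w' n (fun i hi => input_getElem _ _ _ i hi) t (by omega)).1
  obtain ⟨s, hs⟩ := hacc.2 ⟨Equiv.refl _, fun _ _ => rfl, fun _ _ => rfl⟩
  have hst : (run M w t).state = M.acc := by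
    rcases le_total s t with h | h
    · obtain ⟨d, hd⟩ := Nat.exists_eq_add_of_le h
      rw [hd, run_halted M w s (Or.inl hs) d]
      exact hs
    · obtain ⟨d, rfl⟩ := Nat.exists_eq_add_of_le h
      rw [run_halted M w t hht d] at hs
      exact hs
  exact not_iso n hn (hacc'.1 ⟨t, hagree ▸ hst⟩)

/-- The assertion of the question. -/
def Assertion : Prop :=
  ∀ (J K : FOClass) (q : Polynomial ℝ), (∀ n, (J.f n : ℝ) ≤ q.eval (K.f n : ℝ)) →
    ∃ p : Polynomial ℝ, ∀ α : Machine, Tests K α →
      ∃ β : Machine, Tests J β ∧ ∃ N, ∀ n ≥ N, (J.m β n : ℝ) ≤ p.eval (K.m α n : ℝ)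

/-- The assertion of the question fails. There are classes `J` and `K` with `f_K(n) = 1` and
`f_J(n) ≤ 2` for all `n`, an algorithm for `K` that makes no step, and every algorithm for `J`
makes at least `n` steps on some pair of `n`-element members. -/
theorem result :
    (∃ J K : FOClass, (∀ n, K.f n = 1) ∧ (∀ n, J.f n ≤ 2) ∧
      (∃ α : Machine, Tests K α ∧ ∀ n, K.m α n = 0) ∧
      ∀ β : Machine, Tests J β → ∀ n, n ≤ J.m β n) ∧
    ¬ Assertion := by
  refine ⟨⟨J, K, f_K, f_J, ⟨yes, tests_K, m_K⟩, le_m_J⟩, ?_⟩
  intro h
  obtain ⟨p, hp⟩ := h J K (Polynomial.C 2) (by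
    intro n
    rw [Polynomial.eval_C]
    exact_mod_cast f_J n)
  obtain ⟨β, hβ, N, hN⟩ := hp yes tests_K
  obtain ⟨k, hk⟩ := exists_nat_gt (p.eval 0)
  have h1 := hN (max N k) (le_max_left _ _)
  rw [m_K] at h1
  have h2 : ((max N k : ℕ) : ℝ) ≤ (J.m β (max N k) : ℝ) := by
    exact_mod_cast le_m_J β hβ (max N k)
  have h3 : (k : ℝ) ≤ ((max N k : ℕ) : ℝ) := by exact_mod_cast le_max_right N k
  simp only [Nat.cast_zero] at h1
  linarith

end Pool.Agent.Results.MP_28ce77_lc.Disproof
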